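import Mathlib

/-!
# Mirror codes (MP_91138c_lc): definitions
-/

namespace Pool.Agent.Q128.Mirror

open Classical

/-- A Pauli operator up to phase on the qubits indexed by `G`: the pair `(z, x)` of vectors over
`GF(2)`; the operator acts on the qubit `q` as `Z ^ (z q) * X ^ (x q)`. -/
abbrev Pauli (G : Type) := (G → ZMod 2) × (G → ZMod 2)

/-- The indicator vector of a set of qubits. -/
noncomputable def ind {G : Type} (S : Set G) : G → ZMod 2 := fun q => if q ∈ S then 1 else 0

/-- The symplectic form; two Pauli operators commute if and only if it vanishes. -/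
def symp {G : Type} [Fintype G] (P Q : Pauli G) : ZMod 2 :=
  ∑ q, (P.1 q * Q.2 q + P.2 q * Q.1 q)

/-- The number of qubits on which the operator acts nontrivially. -/
noncomputable def weight {G : Type} [Fintype G] (P : Pauli G) : ℕ :=
  (Finset.univ.filter fun q => P.1 q ≠ 0 ∨ P.2 q ≠ 0).card

/-- The symmetric mirror check `Z(A g) X(B g⁻¹)`. -/
noncomputable def symCheck {G : Type} [Group G] (A B : Set G) (g : G) : Pauli G :=
  (ind {q | ∃ a ∈ A, q = a * g}, ind {q | ∃ b ∈ B, q = b * g⁻¹})

/-- The asymmetric mirror check `Z(A g) X(g⁻¹ B)`. -/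
noncomputable def asymCheck {G : Type} [Group G] (A B : Set G) (g : G) : Pauli G :=
  (ind {q | ∃ a ∈ A, q = a * g}, ind {q | ∃ b ∈ B, q = g⁻¹ * b})

/-- The checks commute pairwise. -/
def Valid {G : Type} [Fintype G] (S : G → Pauli G) : Prop :=
  ∀ g h, symp (S g) (S h) = 0

/-- The span of the checks. -/
def code {G : Type} (S : G → Pauli G) : Submodule (ZMod 2) (Pauli G) :=
  Submodule.span (ZMod 2) (Set.range S)

/-- The number `k` of logical qubits. -/
noncomputable def dimK {G : Type} [Fintype G] (S : G → Pauli G) : ℕ :=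
  Fintype.card G - Module.finrank (ZMod 2) (code S)

/-- The distance: the least weight of an operator which commutes with all checks but is not in
their span (`⊤` if there is none). -/
noncomputable def dist {G : Type} [Fintype G] (S : G → Pauli G) : ℕ∞ :=
  ⨅ P ∈ {P : Pauli G | (∀ g, symp P (S g) = 0) ∧ P ∉ code S}, (weight P : ℕ∞)

/-- The parameters `[[n', k', d']]` of the code with the checks `S'` dominate the parameters
`[[n, k, d]]` of the code with the checks `S`: `n' ≤ n`, `k' ≥ k`, `d' ≥ d` (vacuous if `k = 0`),
and at least one of the inequalities is strict. -/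
def Dominates {G' G : Type} [Fintype G'] [Fintype G] (S' : G' → Pauli G') (S : G → Pauli G) :
    Prop :=
  Fintype.card G' ≤ Fintype.card G ∧ dimK S ≤ dimK S' ∧ (dimK S = 0 ∨ dist S ≤ dist S') ∧
    (Fintype.card G' < Fintype.card G ∨ dimK S < dimK S' ∨ dist S < dist S')

end Pool.Agent.Q128.Mirror
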