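import Pool.Agent.Q128.Mirror.Defs

namespace Pool.Agent.Q128.Mirror

open Classical Module

variable {G : Type} [Fintype G]

/-- the symplectic form as a bilinear map -/
def sympB : Pauli G →ₗ[ZMod 2] Pauli G →ₗ[ZMod 2] ZMod 2 :=
  LinearMap.mk₂ (ZMod 2) symp
    (by intro a b c; simp only [symp, ← Finset.sum_add_distrib, Prod.fst_add, Prod.snd_add,
          Pi.add_apply]
        exact Finset.sum_congr rfl fun q _ => by ring)
    (by intro a b c; simp only [symp, smul_eq_mul, Finset.mul_sum, Prod.smul_fst, Prod.smul_snd,
          Pi.smul_apply, smul_eq_mul]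
        exact Finset.sum_congr rfl fun q _ => by ring)
    (by intro a b c; simp only [symp, ← Finset.sum_add_distrib, Prod.fst_add, Prod.snd_add,
          Pi.add_apply]
        exact Finset.sum_congr rfl fun q _ => by ring)
    (by intro a b c; simp only [symp, smul_eq_mul, Finset.mul_sum, Prod.smul_fst, Prod.smul_snd,
          Pi.smul_apply, smul_eq_mul]
        exact Finset.sum_congr rfl fun q _ => by ring)

@[simp] lemma sympB_apply (P Q : Pauli G) : sympB P Q = symp P Q := rfl

/-- extension by zero -/
noncomputable def ext (T : Finset G) : ((T → ZMod 2) × (T → ZMod 2)) →ₗ[ZMod 2] Pauli G where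
  toFun P := (fun q => if h : q ∈ T then P.1 ⟨q, h⟩ else 0,
    fun q => if h : q ∈ T then P.2 ⟨q, h⟩ else 0)
  map_add' P Q := by
    ext q <;> by_cases h : q ∈ T <;> simp [h]
  map_smul' c P := by
    ext q <;> by_cases h : q ∈ T <;> simp [h]

lemma ext_inj (T : Finset G) : Function.Injective (ext T) := by
  intro P Q h
  have h1 := congrArg Prod.fst h
  have h2 := congrArg Prod.snd h
  ext q
  · have := congrFun h1 q
    simpa [ext] using this
  · have := congrFun h2 q
    simpa [ext] using this

lemma ext_weight (T : Finset G) (P : (T → ZMod 2) × (T → ZMod 2)) :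
    weight (ext T P) ≤ T.card := by
  unfold weight
  apply Finset.card_le_card
  intro q hq
  simp only [Finset.mem_filter, Finset.mem_univ, true_and] at hq
  by_contra h
  simp [ext, h] at hq

lemma ext_off (T : Finset G) (P : (T → ZMod 2) × (T → ZMod 2)) (q : G) (hq : q ∉ T) :
    (ext T P).1 q = 0 ∧ (ext T P).2 q = 0 := by
  simp [ext, hq]

lemma dist_le {S : G → Pauli G} {P : Pauli G} (h1 : ∀ g, symp P (S g) = 0) (h2 : P ∉ code S) :
    dist S ≤ (weight P : ℕ∞) :=
  iInf₂_le P ⟨h1, h2⟩

lemma symp_code {S : G → Pauli G} {P : Pauli G} (h1 : ∀ v ∈ code S, symp P v = 0) (g : G) :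
    symp P (S g) = 0 :=
  h1 _ (Submodule.subset_span ⟨g, rfl⟩)

/-- if all operators of weight at most `f = dim V` which commute with `V` are in `V` then `V` is
supported on every set of `f` qubits -/
lemma supported {S : G → Pauli G} {T : Finset G} (hT : T.card = finrank (ZMod 2) (code S))
    (h : ¬ dist S ≤ (T.card : ℕ∞)) : code S ≤ LinearMap.range (ext T) := by
  set V := code S with hV
  let L : ((T → ZMod 2) × (T → ZMod 2)) →ₗ[ZMod 2] (V →ₗ[ZMod 2] ZMod 2) :=
    (LinearMap.lcomp (ZMod 2) (ZMod 2) V.subtype) ∘ₗ sympB ∘ₗ (ext T)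
  have hL : ∀ P v, L P v = symp (ext T P) v := fun P v => rfl
  have hdim := LinearMap.finrank_range_add_finrank_ker L
  have hd1 : finrank (ZMod 2) ((T → ZMod 2) × (T → ZMod 2)) = 2 * T.card := by
    rw [Module.finrank_prod]; simp; ring
  have hd2 : finrank (ZMod 2) (LinearMap.range L) ≤ finrank (ZMod 2) V := by
    calc _ ≤ finrank (ZMod 2) (V →ₗ[ZMod 2] ZMod 2) := Submodule.finrank_le _
      _ = finrank (ZMod 2) V := Subspace.dual_finrank_eq
  have hker : finrank (ZMod 2) V ≤ finrank (ZMod 2) (LinearMap.ker L) := by omega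
  have hle : (LinearMap.ker L).map (ext T) ≤ V := by
    rintro _ ⟨P, hP, rfl⟩
    by_contra hne
    apply h
    refine le_trans (dist_le (P := ext T P) ?_ hne) (by exact_mod_cast ext_weight T P)
    apply symp_code
    intro v hv
    have : L P = 0 := hP
    have := hL P ⟨v, hv⟩
    rw [‹L P = 0›] at this
    simpa using this.symm
  have heq : (LinearMap.ker L).map (ext T) = V := by
    apply Submodule.eq_of_le_of_finrank_le hle
    rw [← (Submodule.equivMapOfInjective (ext T) (ext_inj T) (LinearMap.ker L)).finrank_eq]
    exact hker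
  rw [← heq]
  exact LinearMap.map_le_range

/-- a weak form of the quantum Singleton bound -/
lemma dist_le_finrank {S : G → Pauli G} (h1 : 1 ≤ finrank (ZMod 2) (code S))
    (h2 : 2 * finrank (ZMod 2) (code S) ≤ Fintype.card G) :
    dist S ≤ (finrank (ZMod 2) (code S) : ℕ∞) := by
  by_contra hcon
  obtain ⟨T, hT⟩ : ∃ T : Finset G, T.card = finrank (ZMod 2) (code S) := by
    obtain ⟨T, _, hT⟩ := Finset.exists_subset_card_eq
      (s := (Finset.univ : Finset G)) (n := finrank (ZMod 2) (code S)) (by
        rw [Finset.card_univ]; omega)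
    exact ⟨T, hT⟩
  obtain ⟨T', hTT, hT'⟩ := Finset.exists_subset_card_eq
      (s := Tᶜ) (n := finrank (ZMod 2) (code S)) (by
        rw [Finset.card_compl]; omega)
  have hs := supported hT (by rw [hT]; exact hcon)
  have hs' := supported hT' (by rw [hT']; exact hcon)
  have hz : code S = ⊥ := by
    rw [eq_bot_iff]
    intro P hP
    obtain ⟨A, hA⟩ := hs hP
    obtain ⟨B, hB⟩ := hs' hP
    have : P = 0 := by
      ext q
      · by_cases hq : q ∈ T
        · have : q ∉ T' := fun h => by simpa [hq] using hTT h
          rw [← hB]; exact (ext_off T' B q this).1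
        · rw [← hA]; exact (ext_off T A q hq).1
      · by_cases hq : q ∈ T
        · have : q ∉ T' := fun h => by simpa [hq] using hTT h
          rw [← hB]; exact (ext_off T' B q this).2
        · rw [← hA]; exact (ext_off T A q hq).2
    simpa using this
  rw [hz] at h1
  simp at h1

lemma dist_le_one {S : G → Pauli G} (h1 : finrank (ZMod 2) (code S) = 0) [Nonempty G] :
    dist S ≤ 1 := by
  have hz : code S = ⊥ := by
    exact Submodule.finrank_eq_zero.mp h1
  obtain ⟨q⟩ := ‹Nonempty G›
  let P : Pauli G := (fun r => if r = q then 1 else 0, 0)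
  have hS : ∀ g, S g = 0 := by
    intro g
    have : S g ∈ code S := Submodule.subset_span ⟨g, rfl⟩
    rw [hz] at this
    simpa using this
  have hw : weight P ≤ 1 := by
    unfold weight
    calc _ ≤ ({q} : Finset G).card := by
          apply Finset.card_le_card
          intro r hr
          simp only [Finset.mem_filter, Finset.mem_univ, true_and, P] at hr
          by_contra h
          simp at h
          simp [h] at hr
      _ = 1 := by simp
  refine le_trans (dist_le (P := P) ?_ ?_) (by exact_mod_cast hw)
  · intro g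
    rw [hS g]
    simp [symp]
  · rw [hz]
    intro h
    have h0 : P = 0 := by simpa using h
    have := congrFun (congrArg Prod.fst h0) q
    simp [P] at this

/-- no family of checks dominates a code with parameters `[[n, n - 2, 2]]`, `n ≥ 4` -/
theorem not_dominates {G' : Type} [Fintype G'] [Nonempty G'] (S' : G' → Pauli G') (S : G → Pauli G)
    (hn : 4 ≤ Fintype.card G) (hk : dimK S = Fintype.card G - 2) (hd : dist S = 2) :
    ¬ Dominates S' S := by
  rintro ⟨h1, h2, h3, h4⟩
  rw [hk] at h2 h3 h4
  rw [hd] at h3 h4
  have h3' : (2 : ℕ∞) ≤ dist S' := by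
    rcases h3 with h | h
    · omega
    · exact h
  have hf : finrank (ZMod 2) (code S') ≤ Fintype.card G' - (Fintype.card G - 2) := by
    unfold dimK at h2
    omega
  rcases Nat.lt_or_ge (finrank (ZMod 2) (code S')) 1 with h0 | h0
  · have := dist_le_one (S := S') (by omega)
    have := h3'.trans this
    exact absurd this (by decide)
  · have hb : 2 * finrank (ZMod 2) (code S') ≤ Fintype.card G' := by omega
    have hle := dist_le_finrank h0 hb
    have h2f : 2 ≤ finrank (ZMod 2) (code S') := by
      exact_mod_cast h3'.trans hle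
    have hcard : Fintype.card G' = Fintype.card G := by omega
    have hf2 : finrank (ZMod 2) (code S') = 2 := by omega
    rcases h4 with h | h | h
    · omega
    · unfold dimK at h
      omega
    · rw [hf2] at hle
      exact absurd (h.trans_le hle) (by simp)

section example_code

variable [Group G] (H : Subgroup G)

lemma sym_eq (hH : H.index = 2) (g : G) :
    symCheck (H : Set G) Set.univ g =
      (fun q => if (q ∈ H ↔ g ∈ H) then 1 else 0, fun _ => 1) := by
  unfold symCheck ind
  ext q
  · have : (∃ a ∈ H, q = a * g) ↔ (q ∈ H ↔ g ∈ H) := by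
      have h1 : (∃ a ∈ H, q = a * g) ↔ q * g⁻¹ ∈ H := by
        constructor
        · rintro ⟨a, ha, rfl⟩
          simpa using ha
        · intro h
          exact ⟨_, h, by simp⟩
      rw [h1, Subgroup.mul_mem_iff_of_index_two hH, H.inv_mem_iff]
    simp [this]
  · have : ∃ b : G, q = b * g⁻¹ := ⟨q * g, by simp⟩
    simp [this]

lemma asym_eq (g : G) :
    asymCheck (H : Set G) Set.univ g = symCheck (H : Set G) Set.univ g := by
  unfold symCheck asymCheck ind
  ext q
  · rfl
  · have h1 : ∃ b : G, q = b * g⁻¹ := ⟨q * g, by simp⟩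
    have h2 : ∃ b : G, q = g⁻¹ * b := ⟨g * q, by simp⟩
    simp [h1, h2]

lemma sum_check (hH : H.index = 2) (g : G) :
    ∑ q : G, (if (q ∈ H ↔ g ∈ H) then (1 : ZMod 2) else 0) =
      ∑ q : G, (if q ∈ H then (1 : ZMod 2) else 0) := by
  refine Fintype.sum_equiv (Equiv.mulRight g⁻¹) _ _ fun q => ?_
  have h : (Equiv.mulRight g⁻¹) q ∈ H ↔ (q ∈ H ↔ g ∈ H) := by
    rw [Equiv.coe_mulRight, Subgroup.mul_mem_iff_of_index_two hH, H.inv_mem_iff]
  by_cases h1 : (q ∈ H ↔ g ∈ H)
  · rw [if_pos h1, if_pos (h.2 h1)]
  · rw [if_neg h1, if_neg (fun h2 => h1 (h.1 h2))]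

lemma valid_sym (hH : H.index = 2) : Valid (symCheck (H : Set G) Set.univ) := by
  intro g h
  rw [sym_eq H hH, sym_eq H hH]
  simp only [symp, mul_one, one_mul, Finset.sum_add_distrib]
  rw [sum_check H hH, sum_check H hH]
  exact CharTwo.add_self_eq_zero _

lemma code_eq (hH : H.index = 2) {g0 : G} (hg : g0 ∉ H) :
    code (symCheck (H : Set G) Set.univ) = Submodule.span (ZMod 2)
      (Set.range ![symCheck (H : Set G) Set.univ 1, symCheck (H : Set G) Set.univ g0]) := by
  unfold code
  congr 1
  ext P
  simp only [Set.mem_range]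
  constructor
  · rintro ⟨g, rfl⟩
    by_cases h : g ∈ H
    · refine ⟨0, ?_⟩
      simp [sym_eq H hH, h, H.one_mem]
    · refine ⟨1, ?_⟩
      simp [sym_eq H hH, h, hg]
  · rintro ⟨i, rfl⟩
    fin_cases i
    · exact ⟨1, rfl⟩
    · exact ⟨g0, rfl⟩

lemma lin_ind (hH : H.index = 2) {g0 : G} (hg : g0 ∉ H) :
    LinearIndependent (ZMod 2)
      ![symCheck (H : Set G) Set.univ 1, symCheck (H : Set G) Set.univ g0] := by
  rw [LinearIndependent.pair_iff]
  intro s t h
  have h1 := congrFun (congrArg Prod.fst h) 1
  have h2 := congrFun (congrArg Prod.snd h) 1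
  simp [sym_eq H hH, H.one_mem, hg] at h1 h2
  subst h1
  simpa using h2

lemma finrank_code (hH : H.index = 2) :
    finrank (ZMod 2) (code (symCheck (H : Set G) Set.univ)) = 2 := by
  have hne : H ≠ ⊤ := by
    rintro rfl
    simp at hH
  obtain ⟨g0, hg⟩ : ∃ g, g ∉ H := by
    by_contra h
    push Not at h
    exact hne (eq_top_iff.2 fun x _ => h x)
  rw [code_eq H hH hg, finrank_span_eq_card (lin_ind H hH hg)]
  simp

lemma dist_code (hH : H.index = 2) (hn : 3 ≤ Fintype.card G) :
    dist (symCheck (H : Set G) Set.univ) = 2 := by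
  have hne : H ≠ ⊤ := by
    rintro rfl
    simp at hH
  obtain ⟨g0, hg⟩ : ∃ g, g ∉ H := by
    by_contra h
    push Not at h
    exact hne (eq_top_iff.2 fun x _ => h x)
  apply le_antisymm
  · obtain ⟨q, r, s, hqr, hqs, hrs⟩ := Fintype.two_lt_card_iff.mp (by omega : 2 < Fintype.card G)
    let P : Pauli G := (fun x => if x = q ∨ x = r then 1 else 0, 0)
    have hw : weight P ≤ 2 := by
      unfold weight
      calc _ ≤ ({q, r} : Finset G).card := by
            apply Finset.card_le_card
            intro x hx
            simp only [Finset.mem_filter, Finset.mem_univ, true_and, P] at hx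
            by_contra h
            simp only [Finset.mem_insert, Finset.mem_singleton] at h
            simp [h] at hx
        _ ≤ 2 := Finset.card_le_two
    refine le_trans (dist_le (P := P) ?_ ?_) (by exact_mod_cast hw)
    · intro g
      rw [sym_eq H hH]
      simp only [symp, P, mul_one, Pi.zero_apply, zero_mul, add_zero]
      rw [Finset.sum_ite, Finset.sum_const_zero, add_zero, Finset.sum_const]
      have : (Finset.univ.filter fun x => x = q ∨ x = r) = {q, r} := by
        ext x; simp
      rw [this, Finset.card_pair hqr]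
      rfl
    · rw [code_eq H hH hg]
      intro hP
      rw [Submodule.mem_span_range_iff_exists_fun] at hP
      obtain ⟨c, hc⟩ := hP
      simp only [Fin.sum_univ_two, Matrix.cons_val_zero, Matrix.cons_val_one,
        sym_eq H hH] at hc
      have hx := congrFun (congrArg Prod.snd hc) q
      have hz1 := congrFun (congrArg Prod.fst hc) q
      have hz2 := congrFun (congrArg Prod.fst hc) s
      simp [P, H.one_mem, hg] at hx hz1 hz2
      have hsq : s ≠ q := fun h => hqs h.symm
      have hsr : s ≠ r := fun h => hrs h.symm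
      have hc01 : c 0 = c 1 := by
        have : c 0 = - c 1 := eq_neg_of_add_eq_zero_left hx
        rw [this]
        exact CharTwo.neg_eq _
      rw [hc01] at hz1 hz2
      by_cases h1 : q ∈ H <;> by_cases h2 : s ∈ H <;>
        simp [h1, h2, hsq, hsr] at hz1 hz2 <;> rw [hz2] at hz1 <;> exact absurd hz1 (by decide)
  · unfold dist
    refine le_iInf₂ fun P hP => ?_
    obtain ⟨hP1, hP2⟩ := hP
    by_contra hlt
    have hw : weight P ≤ 1 := by
      have : (weight P : ℕ∞) < 2 := not_le.mp hlt
      have : weight P < 2 := by exact_mod_cast this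
      omega
    unfold weight at hw
    rw [Finset.card_le_one_iff] at hw
    simp only [Finset.mem_filter, Finset.mem_univ, true_and] at hw
    apply hP2
    have hzero : P = 0 := by
      by_contra hPne
      have : ∃ q, P.1 q ≠ 0 ∨ P.2 q ≠ 0 := by
        by_contra h
        push Not at h
        apply hPne
        ext q
        · exact (h q).1
        · exact (h q).2
      obtain ⟨q, hq⟩ := this
      have hoff : ∀ r, r ≠ q → P.1 r = 0 ∧ P.2 r = 0 := by
        intro r hr
        by_contra h
        exact hr (hw (by tauto) hq)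
      have e1 := hP1 1
      have e2 := hP1 g0
      rw [sym_eq H hH] at e1 e2
      simp only [symp] at e1 e2
      rw [Finset.sum_eq_single q] at e1 e2
      · have hx : P.2 q = 0 := by
          by_cases h1 : q ∈ H
          · simp [h1, hg, H.one_mem] at e1 e2
            rw [e2] at e1
            simpa using e1
          · simp [h1, hg, H.one_mem] at e1 e2
            rw [e1] at e2
            simpa using e2
        have hz : P.1 q = 0 := by
          rw [hx] at e1
          simpa using e1
        rcases hq with h | h
        · exact h hz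
        · exact h hx
      · intro r _ hr
        rw [(hoff r hr).1, (hoff r hr).2]; simp
      · simp
      · intro r _ hr
        rw [(hoff r hr).1, (hoff r hr).2]; simp
      · simp
    rw [hzero]
    exact Submodule.zero_mem _

end example_code

lemma four_le_card [Group G] (h : ∃ a b : G, a * b ≠ b * a) : 4 ≤ Fintype.card G := by
  obtain ⟨a, b, hab⟩ := h
  have ha : a ≠ 1 := by rintro rfl; simp at hab
  have hb : b ≠ 1 := by rintro rfl; simp at hab
  have hne : a ≠ b := by rintro rfl; exact hab rfl
  have h1 : a * b ≠ 1 := by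
    intro h
    apply hab
    have : b = a⁻¹ := by
      rw [eq_comm, inv_eq_iff_mul_eq_one]; exact h
    rw [this]; simp
  have h2 : a * b ≠ a := by simpa using hb
  have h3 : a * b ≠ b := by simpa using ha
  have : ({1, a, b, a * b} : Finset G).card = 4 := by
    rw [Finset.card_insert_of_notMem, Finset.card_insert_of_notMem, Finset.card_insert_of_notMem]
    · simp
    · simpa using h3.symm
    · simp only [Finset.mem_insert, Finset.mem_singleton, not_or]
      exact ⟨hne, h2.symm⟩
    · simp only [Finset.mem_insert, Finset.mem_singleton, not_or]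
      exact ⟨ha.symm, hb.symm, h1.symm⟩
  rw [← this]
  exact Finset.card_le_univ _

end Pool.Agent.Q128.Mirror
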